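import Pool.Agent.MP_acff2a_gt.H47.Space

open TopologicalSpace

namespace Pool.Agent.Results.MP_acff2a_gt.PointFinite

/-- There is a first countable compact Hausdorff space `X` that is not metrizable, such that in
`C_p(X)`, the subspace of the continuous functions in the product space `X → ℝ`, every
point-finite indexed family of nonempty open sets has a countable index set. -/
theorem result : ∃ (X : Type) (_ : TopologicalSpace X),
    CompactSpace X ∧ T2Space X ∧ FirstCountableTopology X ∧ ¬ MetrizableSpace X ∧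
      ∀ (ι : Type) (U : ι → Set {f : X → ℝ // Continuous f}), (∀ i, IsOpen (U i)) →
        (∀ i, (U i).Nonempty) → (∀ f, {i | f ∈ U i}.Finite) → Countable ι := by
  obtain ⟨N, h1, h2, h3, h4, h5⟩ := Pool.Agent.MP_acff2a_gt.H47.exists_K
  refine ⟨Pool.Agent.MP_acff2a_gt.H47.X N, Pool.Agent.MP_acff2a_gt.H47.topX N,
    Pool.Agent.MP_acff2a_gt.H47.compact h1 h3 h4, Pool.Agent.MP_acff2a_gt.H47.t2 h1,
    Pool.Agent.MP_acff2a_gt.H47.firstCountable h1 h3 h4,
    Pool.Agent.MP_acff2a_gt.H47.not_metrizable h1 h3 h4 h2, fun ι U hU hne hfin => ?_⟩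
  let e : C(Pool.Agent.MP_acff2a_gt.H47.X N, ℝ) →
      {f : Pool.Agent.MP_acff2a_gt.H47.X N → ℝ // Continuous f} := fun f => ⟨f, f.continuous⟩
  have he : ∀ i, (e ⁻¹' U i).Nonempty := fun i => by
    obtain ⟨f, hf⟩ := hne i
    exact ⟨⟨f.1, f.2⟩, hf⟩
  have hc := Pool.Agent.MP_acff2a_gt.H47.pointFinite h5 (Set.range fun i => e ⁻¹' U i)
    (by
      rintro _ ⟨i, rfl⟩
      obtain ⟨V, hV, hVU⟩ := isOpen_induced_iff.1 (hU i)
      exact ⟨isOpen_induced_iff.2 ⟨V, hV, (congrArg (e ⁻¹' ·) hVU :)⟩, he i⟩)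
    (fun f => ((hfin (e f)).image fun i => e ⁻¹' U i).subset (by
      rintro _ ⟨⟨i, rfl⟩, hi⟩
      exact ⟨i, hi, rfl⟩))
  refine Set.countable_univ_iff.1 ((hc.biUnion (t := fun V _ => {i | e ⁻¹' U i = V}) ?_).mono
    fun i _ => Set.mem_iUnion₂.2 ⟨_, ⟨i, rfl⟩, rfl⟩)
  rintro _ ⟨i, rfl⟩
  obtain ⟨f, hf⟩ := he i
  exact ((hfin (e f)).subset fun j (hj : e ⁻¹' U j = e ⁻¹' U i) =>
    (hj.symm ▸ hf : f ∈ e ⁻¹' U j)).countable

end Pool.Agent.Results.MP_acff2a_gt.PointFinite
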